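import Mathlib

namespace Pool.Agent.Results.MP_6460d1_co.Counter

open Finset Matrix

/-- `G` is split: the vertices fall into a clique and a set without edges -/
def IsSplit {V : Type} (G : SimpleGraph V) : Prop :=
  ∃ C : Set V, G.IsClique C ∧ G.IsIndepSet Cᶜ

open Classical in
/-- the set of eigenvalues of the adjacency matrix -/
def eigs {V : Type} [Fintype V] (G : SimpleGraph V) : Set ℂ :=
  {μ | Module.End.HasEigenvalue (Matrix.toLin' (G.adjMatrix ℂ)) μ}

/-- the set of vertex degrees -/
def degs {V : Type} (G : SimpleGraph V) : Set ℕ :=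
  Set.range fun v => (G.neighborSet v).ncard

section gen
variable {C S : Type} (N : S → Finset C)

def gr : SimpleGraph (C ⊕ S) where
  Adj
    | .inl i, .inl j => i ≠ j
    | .inl i, .inr s => i ∈ N s
    | .inr s, .inl i => i ∈ N s
    | .inr _, .inr _ => False
  symm := ⟨by rintro (i | s) (j | t) h <;> first | exact h | exact h.symm⟩
  loopless := ⟨by rintro (i | s) h <;> first | exact h rfl | exact h⟩

theorem split : IsSplit (gr N) := by
  refine ⟨Set.range Sum.inl, ?_, ?_⟩
  · rintro _ ⟨i, rfl⟩ _ ⟨j, rfl⟩ h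
    exact fun e => h (by rw [e])
  · rintro (i | s) hi (j | t) hj _
    · exact absurd ⟨i, rfl⟩ hi
    · exact absurd ⟨i, rfl⟩ hi
    · exact absurd ⟨j, rfl⟩ hj
    · exact fun h => h

theorem diam (h : ∀ s, (N s).Nonempty) (s t : S) (hst : Disjoint (N s) (N t)) :
    (gr N).ediam = 3 := by
  have a : ∀ i j : C, (gr N).edist (.inl i) (.inl j) ≤ 1 := fun i j => by
    rw [SimpleGraph.edist_le_one_iff_adj_or_eq]
    by_cases e : i = j
    · exact Or.inr (by rw [e])
    · exact Or.inl e
  have b : ∀ v, ∃ i : C, (gr N).edist v (.inl i) ≤ 1 := by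
    rintro (i | s)
    · exact ⟨i, a i i⟩
    · obtain ⟨i, hi⟩ := h s
      exact ⟨i, SimpleGraph.edist_le_one_iff_adj_or_eq.2 (Or.inl hi)⟩
  apply le_antisymm
  · refine SimpleGraph.ediam_le_of_edist_le fun u v => ?_
    obtain ⟨i, hi⟩ := b u
    obtain ⟨j, hj⟩ := b v
    rw [SimpleGraph.edist_comm] at hj
    calc _ ≤ _ := SimpleGraph.edist_triangle (v := .inl i)
      _ ≤ 1 + (_ + _) := add_le_add hi (SimpleGraph.edist_triangle (v := .inl j))
      _ ≤ 1 + (1 + 1) := add_le_add le_rfl (add_le_add (a i j) hj)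
      _ = 3 := by norm_num
  · refine le_trans ?_ (SimpleGraph.edist_le_ediam (u := .inr s) (v := .inr t))
    have : 2 < (gr N).edist (.inr s) (.inr t) := by
      rw [SimpleGraph.two_lt_edist_iff]
      refine ⟨fun e => ?_, fun e => e, ?_⟩
      · obtain ⟨i, hi⟩ := h s
        rw [Sum.inr.injEq] at e
        exact disjoint_left.1 hst hi (e ▸ hi)
      · rw [Set.eq_empty_iff_forall_notMem]
        rintro (i | u) ⟨h1, h2⟩
        · exact disjoint_left.1 hst h1 h2
        · exact h1
    exact Order.add_one_le_of_lt this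

theorem deg (s : S) : ((gr N).neighborSet (.inr s)).ncard = (N s).card := by
  have : (gr N).neighborSet (.inr s) = Sum.inl '' (N s : Set C) := by
    ext (i | t)
    · simp [gr]
    · simp [gr]
  rw [this, Set.ncard_image_of_injective _ Sum.inl_injective, Set.ncard_coe_finset]

variable [Fintype C] [Fintype S] [DecidableEq C]

theorem eig_iff (μ : ℂ) : μ ∈ eigs (gr N) ↔ ∃ (x : C → ℂ) (y : S → ℂ), (x ≠ 0 ∨ y ≠ 0) ∧
    (∀ i, ∑ j, x j - x i + ∑ s, (if i ∈ N s then y s else 0) = μ * x i) ∧
    ∀ s, ∑ j, (if j ∈ N s then x j else 0) = μ * y s := by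
  classical
  have key : ∀ v : C ⊕ S → ℂ, (Matrix.toLin' ((gr N).adjMatrix ℂ) v = μ • v) ↔
      (∀ i, ∑ j, v (.inl j) - v (.inl i) + ∑ s, (if i ∈ N s then v (.inr s) else 0) = μ * v (.inl i)) ∧
      ∀ s, ∑ j, (if j ∈ N s then v (.inl j) else 0) = μ * v (.inr s) := fun v => by
    rw [funext_iff, Sum.forall]
    refine and_congr (forall_congr' fun i => ?_) (forall_congr' fun s => ?_)
    · refine iff_of_eq (congrArg₂ _ ?_ rfl)
      rw [toLin'_apply, mulVec, dotProduct, Fintype.sum_sum_type]
      congr 1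
      · rw [← sum_erase_eq_sub (mem_univ i), ← filter_ne, sum_filter]
        exact sum_congr rfl fun j _ => by by_cases e : i = j <;> simp [gr, e]
      · exact sum_congr rfl fun s _ => by by_cases e : i ∈ N s <;> simp [gr, e]
    · refine iff_of_eq (congrArg₂ _ ?_ rfl)
      rw [toLin'_apply, mulVec, dotProduct, Fintype.sum_sum_type]
      rw [sum_eq_zero (s := univ) (f := fun t => (gr N).adjMatrix ℂ (.inr s) (.inr t) * v (.inr t))
        (fun t _ => by simp [gr]), add_zero]
      exact sum_congr rfl fun j _ => by by_cases e : j ∈ N s <;> simp [gr, e]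
  constructor
  · intro h
    obtain ⟨v, h1, h2⟩ := Module.End.HasEigenvalue.exists_hasEigenvector h
    refine ⟨fun i => v (.inl i), fun s => v (.inr s), ?_, (key v).1 ?_⟩
    · by_contra hc
      push Not at hc
      exact h2 (funext fun | .inl i => congrFun hc.1 i | .inr s => congrFun hc.2 s)
    · have := Module.End.mem_eigenspace_iff.1 h1
      exact this
  · rintro ⟨x, y, h0, h⟩
    refine Module.End.hasEigenvalue_of_hasEigenvector (x := Sum.elim x y)
      ⟨Module.End.mem_eigenspace_iff.2 ((key _).2 h), fun e => ?_⟩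
    rcases h0 with h0 | h0
    · exact h0 (funext fun i => congrFun e (.inl i))
    · exact h0 (funext fun i => congrFun e (.inr i))

theorem bbt {l : ℕ} (h : ∀ i j, (univ.filter fun s => i ∈ N s ∧ j ∈ N s).card = if i = j then l ^ 2 else l)
    (x : C → ℂ) (i : C) :
    ∑ s, (if i ∈ N s then ∑ j, (if j ∈ N s then x j else 0) else 0) = l * ∑ j, x j + (l ^ 2 - l) * x i := by
  have : ∀ s, (if i ∈ N s then ∑ j, (if j ∈ N s then x j else 0) else 0) =
      ∑ j, if i ∈ N s ∧ j ∈ N s then x j else 0 := fun s => by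
    by_cases e : i ∈ N s <;> simp [e]
  simp only [this]
  rw [sum_comm]
  have : ∀ j, ∑ s, (if i ∈ N s ∧ j ∈ N s then x j else 0) =
      l * x j + if i = j then ((l : ℂ) ^ 2 - l) * x j else 0 := fun j => by
    rw [← sum_filter, sum_const, h, nsmul_eq_mul]
    split_ifs <;> push_cast <;> ring
  simp only [this]
  rw [sum_add_distrib, ← mul_sum, sum_ite_eq, if_pos (mem_univ _)]

theorem eigs_eq {l : ℕ} (hl : 2 ≤ l)
    (h : ∀ i j, (univ.filter fun s => i ∈ N s ∧ j ∈ N s).card = if i = j then l ^ 2 else l)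
    (p q : C) (hpq : p ≠ q) (y : S → ℂ) (hy : y ≠ 0) (hy0 : ∀ i, ∑ s, (if i ∈ N s then y s else 0) = 0) :
    eigs (gr N) = {0, -(l : ℂ), (l : ℂ) - 1, (l : ℂ) - 1 + Fintype.card C} := by
  have red : ∀ μ : ℂ, μ ≠ 0 → (μ ∈ eigs (gr N) ↔
      ∃ x : C → ℂ, x ≠ 0 ∧ ∀ i, (μ + l) * (∑ j, x j - (μ - l + 1) * x i) = 0) := fun μ h0 => by
    rw [eig_iff]
    constructor
    · rintro ⟨x, y, hn, h1, h2⟩
      refine ⟨x, fun e => ?_, fun i => ?_⟩
      · rcases hn with hn | hn
        · exact hn e
        · refine hn (funext fun s => ?_)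
          have := h2 s
          simp only [e, Pi.zero_apply, ite_self, sum_const_zero] at this
          exact (mul_eq_zero.1 this.symm).resolve_left h0
      · have a := bbt N h x i
        simp only [h2] at a
        have b : ∑ s, (if i ∈ N s then μ * y s else 0) = μ * ∑ s, (if i ∈ N s then y s else 0) := by
          rw [mul_sum]; exact sum_congr rfl fun s _ => by split_ifs <;> simp
        linear_combination μ * h1 i - a + b
    · rintro ⟨x, hn, h1⟩
      refine ⟨x, fun s => μ⁻¹ * ∑ j, (if j ∈ N s then x j else 0), Or.inl hn, fun i => ?_, fun s => ?_⟩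
      · have b : ∑ s, (if i ∈ N s then μ⁻¹ * ∑ j, (if j ∈ N s then x j else 0) else 0) =
            μ⁻¹ * ∑ s, (if i ∈ N s then ∑ j, (if j ∈ N s then x j else 0) else 0) := by
          rw [mul_sum]; exact sum_congr rfl fun s _ => by split_ifs <;> simp
        rw [b, bbt N h]
        field_simp
        linear_combination h1 i
      · rw [← mul_assoc, mul_inv_cancel₀ h0, one_mul]
  have l0 : (l : ℂ) ≠ 0 := by exact_mod_cast (by omega : l ≠ 0)
  have l1 : (l : ℂ) - 1 ≠ 0 := sub_ne_zero.2 (by exact_mod_cast (by omega : l ≠ 1))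
  have l2 : (l : ℂ) - 1 + Fintype.card C ≠ 0 := by
    have : ((l + Fintype.card C : ℕ) : ℂ) ≠ (1 : ℕ) := by exact_mod_cast (by omega)
    push_cast at this
    exact fun e => this (by linear_combination e)
  ext μ
  simp only [Set.mem_insert_iff, Set.mem_singleton_iff]
  constructor
  · intro hm
    by_cases h0 : μ = 0
    · exact Or.inl h0
    obtain ⟨x, hn, hx⟩ := (red μ h0).1 hm
    by_cases h1 : μ + l = 0
    · exact Or.inr (Or.inl (by linear_combination h1))
    have hx' : ∀ i, ∑ j, x j = (μ - l + 1) * x i := fun i =>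
      sub_eq_zero.1 ((mul_eq_zero.1 (hx i)).resolve_left h1)
    by_cases h2 : μ - l + 1 = 0
    · exact Or.inr (Or.inr (Or.inl (by linear_combination h2)))
    have s1 : (Fintype.card C : ℂ) * ∑ j, x j = (μ - l + 1) * ∑ j, x j := by
      conv_rhs => rw [mul_sum]
      rw [← sum_congr rfl fun i _ => hx' i, sum_const, card_univ, nsmul_eq_mul]
    have s2 : ∑ j, x j ≠ 0 := fun e => hn (funext fun i => by
      have := hx' i
      rw [e] at this
      exact (mul_eq_zero.1 this.symm).resolve_left h2)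
    have := mul_right_cancel₀ s2 s1
    exact Or.inr (Or.inr (Or.inr (by linear_combination -this)))
  · have one : (fun _ : C => (1 : ℂ)) ≠ 0 := fun e => one_ne_zero (congrFun e p)
    rintro (rfl | rfl | rfl | rfl)
    · exact (eig_iff N 0).2 ⟨0, y, Or.inr hy, fun i => by simp [hy0 i], fun s => by simp⟩
    · exact (red _ (neg_ne_zero.2 l0)).2 ⟨_, one, fun i => by simp⟩
    · refine (red _ l1).2 ⟨Pi.single p 1 - Pi.single q 1, fun e => ?_, fun i => ?_⟩
      · simpa [hpq] using congrFun e p
      · simp [sum_sub_distrib]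
    · refine (red _ l2).2 ⟨_, one, fun i => ?_⟩
      rw [sum_const, card_univ, nsmul_eq_mul]
      ring

end gen

/-- all nonempty subsets, and `m` further copies of every singleton -/
def blk (c m : ℕ) : {T : Finset (Fin c) // T.Nonempty} ⊕ (Fin c × Fin m) → Finset (Fin c) :=
  Sum.elim Subtype.val fun p => {p.1}

theorem cnt {c : ℕ} (A : Finset (Fin c)) (hA : A.Nonempty) :
    (univ.filter fun T : {T : Finset (Fin c) // T.Nonempty} => A ⊆ T.1).card = 2 ^ (c - A.card) := by
  have := card_Icc_finset (subset_univ A)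
  rw [card_univ, Fintype.card_fin] at this
  rw [← this]
  refine card_bij (fun T _ => T.1) (fun T hT => ?_) (fun a _ b _ e => Subtype.ext e) fun T hT => ?_
  · exact mem_Icc.2 ⟨(mem_filter.1 hT).2, subset_univ _⟩
  · exact ⟨⟨T, hA.mono (mem_Icc.1 hT).1⟩, mem_filter.2 ⟨mem_univ _, (mem_Icc.1 hT).1⟩, rfl⟩

theorem design (k m : ℕ) (hm : 2 ^ (k + 2) + m = (2 ^ (k + 1)) ^ 2) (i j : Fin (k + 3)) :
    (univ.filter fun s => i ∈ blk (k + 3) m s ∧ j ∈ blk (k + 3) m s).card =
      if i = j then (2 ^ (k + 1)) ^ 2 else 2 ^ (k + 1) := by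
  rw [card_filter, Fintype.sum_sum_type, ← card_filter, ← card_filter]
  have a := cnt {i, j} (insert_nonempty _ _)
  simp only [insert_subset_iff, singleton_subset_iff] at a
  simp only [blk, Sum.elim_inl, Sum.elim_inr, a, mem_singleton]
  split_ifs with e
  · subst e
    rw [← hm]
    congr 1
    · simp
    · simp only [and_self]
      rw [card_filter, Fintype.sum_prod_type]
      rw [sum_eq_single i]
      · simp
      · intro b _ hb; simp [hb.symm]
      · simp
  · rw [card_pair e, filter_false_of_mem, card_empty]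
    · rfl
    · rintro p - ⟨h1, h2⟩
      exact e (h1.trans h2.symm)

theorem result (k : ℕ) : ∃ (V : Type) (_ : Fintype V) (G : SimpleGraph V),
    IsSplit G ∧ G.Connected ∧ G.ediam = 3 ∧ (eigs G).ncard = 4 ∧ k < (degs G).ncard := by
  have h2 : 2 ≤ 2 ^ (k + 1) := Nat.le_self_pow (by omega) 2
  obtain ⟨m, hm⟩ : ∃ m, 2 ^ (k + 2) + m = (2 ^ (k + 1)) ^ 2 :=
    Nat.exists_eq_add_of_le (by rw [pow_succ, pow_two]; exact Nat.mul_le_mul_left _ h2) |>.imp
      fun _ h => h.symm
  have ne : ∀ s, (blk (k + 3) m s).Nonempty := by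
    rintro (T | p)
    · exact T.2
    · exact singleton_nonempty _
  let p : Fin (k + 3) := 0
  let q : Fin (k + 3) := 1
  have hpq : p ≠ q := Fin.zero_ne_one
  have hd : (gr (blk (k + 3) m)).ediam = 3 :=
    diam _ ne (.inl ⟨{p}, singleton_nonempty _⟩) (.inl ⟨{q}, singleton_nonempty _⟩)
      (disjoint_singleton.2 hpq)
  refine ⟨_, inferInstance, gr (blk (k + 3) m), split _,
    SimpleGraph.connected_of_ediam_ne_top (by rw [hd]; decide), hd, ?_, ?_⟩
  · rw [eigs_eq _ h2 (design k m hm) p q hpq
      (Pi.single (.inl ⟨{p, q}, insert_nonempty _ _⟩) 1 - Pi.single (.inl ⟨{p}, singleton_nonempty _⟩) 1 -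
        Pi.single (.inl ⟨{q}, singleton_nonempty _⟩) 1)]
    · generalize 2 ^ (k + 1) = l at h2
      have e : ({0, -(l : ℂ), (l : ℂ) - 1, (l : ℂ) - 1 + Fintype.card (Fin (k + 3))} : Set ℂ) =
          Int.cast '' (({0, -(l : ℤ), (l : ℤ) - 1, (l : ℤ) - 1 + (k + 3)} : Finset ℤ) : Set ℤ) := by
        simp [Set.image_insert_eq]
      rw [e, Set.ncard_image_of_injective _ Int.cast_injective, Set.ncard_coe_finset,
        card_insert_of_notMem, card_insert_of_notMem, card_pair]
      · omega
      · simp only [mem_insert, mem_singleton]; omega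
      · simp only [mem_insert, mem_singleton]; omega
    · intro e
      have := congrFun e (.inl ⟨{p, q}, insert_nonempty _ _⟩)
      have a : ({p, q} : Finset _) ≠ {p} := fun e => by simpa [card_pair hpq] using congrArg card e
      have b : ({p, q} : Finset _) ≠ {q} := fun e => by simpa [card_pair hpq] using congrArg card e
      simp [Pi.single_apply, a, b] at this
    · intro i
      have : ∀ (t : {T : Finset (Fin (k + 3)) // T.Nonempty} ⊕ (Fin (k + 3) × Fin m)),
          ∑ s, (if i ∈ blk (k + 3) m s then (Pi.single t 1 : _ → ℂ) s else 0) =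
            if i ∈ blk (k + 3) m t then 1 else 0 := fun t => by
        rw [sum_eq_single t]
        · simp
        · intro s _ hs; simp [Pi.single_apply, hs]
        · simp
      have sp : ∀ (c : Prop) [Decidable c] (a b d : ℂ), (if c then a - b - d else 0) =
          (if c then a else 0) - (if c then b else 0) - if c then d else 0 := fun c _ a b d => by
        split_ifs <;> simp
      simp only [Pi.sub_apply, sp, sum_sub_distrib, this]
      simp only [blk, Sum.elim_inl, mem_insert, mem_singleton]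
      by_cases h1 : i = p
      · simp [h1, hpq]
      · by_cases h2 : i = q <;> simp [h1, h2, hpq.symm]
  · have : ((Finset.Icc 1 (k + 3) : Finset ℕ) : Set ℕ) ⊆ degs (gr (blk (k + 3) m)) := fun d hd => by
      obtain ⟨h1, h3⟩ := mem_Icc.1 (mem_coe.1 hd)
      obtain ⟨T, -, hT⟩ := exists_subset_card_eq (s := (univ : Finset (Fin (k + 3)))) (n := d) (by simpa)
      exact ⟨.inr (.inl ⟨T, card_pos.1 (by omega)⟩), (deg _ _).trans hT⟩
    have h := Set.ncard_le_ncard this (Set.finite_range _)
    rw [Set.ncard_coe_finset, Nat.card_Icc] at h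
    omega

end Pool.Agent.Results.MP_6460d1_co.Counter
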